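import Mathlib
import Pool.Agent.Lib_helper76.TCL.Defs
import Pool.Agent.Lib_helper76.TCL.P.FIN
import Pool.Agent.Lib_helper76.TCL.P.EY

set_option autoImplicit false

/-!
# MP_4132b3_nt, TorsionClasses

Elliptic curves over `ℚ` with complex multiplication by the ring of integers `O` of an imaginary
quadratic field `K` (of class number one), with Hecke character `ψ(a) = ε(a) a` of conductor `f`.
The torsion points are `K / O`, `Gal(ℚbar / K)` acts on them through the `ψ(a)`, and complex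
conjugation acts as `t ↦ v conj(t)` for a unit `v`.

* The symbols `[t]`, `t ∈ K / O`, `t ≠ 0`, modulo the Galois relations `[ψ(a) t] = [t]` and the
  distribution relations `∑_(a s = t) [s] = [t] / (a conj(a)²)` span exactly a line over `K`, with
  generator `[1/f]`; `[t] ≠ 0` if and only if `f` divides the order of `t`.
* The Eisenstein-Kronecker series `SS` satisfies the distribution relations; its averages over the
  Galois orbits are the multiples `q(t) L(E, 3) / κ` of `L(E, 3)`, where `κ = ± φ(f) / (w f)`.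
* For rational torsion divisors `b` (invariant under Galois and complex conjugation),
  `∑ b(x) SS(x/N) = r(b) δ L(E, 3)` with `r(b) ∈ ℚ`, and `∑ b(x) ξ(x/N) = r(b) δ κ ξ(1/f)` for all
  systems `ξ` in `K`-vector spaces with these relations; `δ ∈ K`, `conj δ = v δ`.
-/

namespace Pool.Agent.Results.MP_4132b3_nt.TorsionClasses

open Pool.Agent.TCL

theorem result {O : Subring ℂ} {ω : ℂ} (hO : Quad O ω) (hP : IsPrincipalIdealRing O)
    {f : O} (hf : f ≠ 0) {ε : O → O} (hε : GC O f ε) :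
    LE O ε ≠ 0 ∧
    ∃ (q : ℂ → KK O) (κ : KK O),
      (Sys O f ε (KK O) q ∧ q (1 / (f : ℂ)) = 1 ∧
        ∀ (H : Type) [AddCommGroup H] [Module (KK O) H] (ξ : ℂ → H), Sys O f ε H ξ →
          ∀ t ∈ KK O, t ∉ O → ξ t = q t • ξ (1 / (f : ℂ))) ∧
      (∀ x n : O, n ≠ 0 → ¬ IsUnit n → IsCoprime x n →
        (q ((x : ℂ) / (n : ℂ)) ≠ 0 ↔ f ∣ n)) ∧
      (∀ (M : O) (R : Finset O) (t : ℂ), f ∣ M → M ≠ 0 → IsReps M R → t ∉ O →
        (M : ℂ) * t ∈ O → (κ : ℂ) * AV O ω ε M R t = q t * LE O ε) ∧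
      (κ ≠ 0 ∧ ∀ R : Finset O, IsReps f R →
        (κ : ℂ) * ((Nat.card Oˣ : ℂ) * (f : ℂ)) = (phi f R : ℂ) ∨
        (κ : ℂ) * ((Nat.card Oˣ : ℂ) * (f : ℂ)) = -(phi f R : ℂ)) ∧
      ∀ v : O, IsUnit v → ∃ δ : KK O, δ ≠ 0 ∧ starRingEnd ℂ (δ : ℂ) = v * δ ∧
        (∀ (N : ℕ) (b : O → ℚ), 0 < N → Div O f ε v N b →
          ∃ r : ℚ, ∀ R : Finset O, IsReps (N : O) R →
            ∑ x ∈ R, (b x : ℂ) * SS O ω ((x : ℂ) / N) = r * δ * LE O ε ∧
            ∀ (H : Type) [AddCommGroup H] [Module (KK O) H] (ξ : ℂ → H), Sys O f ε H ξ →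
              ∑ x ∈ R, ((b x : ℚ) : KK O) • ξ ((x : ℂ) / N)
                = (r : KK O) • (δ * κ) • ξ (1 / (f : ℂ))) ∧
        (∃ (N : ℕ) (b : O → ℚ) (R : Finset O), 0 < N ∧ Div O f ε v N b ∧ IsReps (N : O) R ∧
          ∑ x ∈ R, (b x : ℂ) * SS O ω ((x : ℂ) / N) ≠ 0) :=
  FIN_main hO hP hf hε

/-- The hypotheses are satisfied by the Gaussian integers and `f = 2 + 2 i`, the case of the curve
`y² = x³ - x`. -/
theorem nonvacuous : Quad GI Complex.I ∧ IsPrincipalIdealRing GI ∧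
    ∃ (f : GI) (ε : GI → GI), (f : ℂ) = 2 + 2 * Complex.I ∧ f ≠ 0 ∧ GC GI f ε :=
  ⟨quad_GI, principal_GI, exists_GC⟩

end Pool.Agent.Results.MP_4132b3_nt.TorsionClasses
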